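import Mathlib

set_option autoImplicit false

namespace Pool.Agent.H.MP_8d0ff6_al.A

open Set Function Equiv
open scoped commutatorElement

variable {X Y : Type} [Countable X] [Countable Y]

def mv (g : Perm X) : Set X := {x | g x ≠ x}

lemma ext1 {ι : Type} {u : ι → X} {v : ι → Y} (hu : Injective u) (hv : Injective v)
    (h1 : (range u)ᶜ.Infinite) (h2 : (range v)ᶜ.Infinite) : ∃ f : X ≃ Y, ∀ i, f (u i) = v i := by
  let e : range u ↪ Y := (Equiv.ofInjective u hu).symm.toEmbedding.trans ⟨v, hv⟩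
  have h3 : range e = range v := (Equiv.ofInjective u hu).symm.surjective.range_comp v
  haveI := h1.to_subtype
  haveI := (h3 ▸ h2 : (range e)ᶜ.Infinite).to_subtype
  obtain ⟨f, hf⟩ := Cardinal.extend_function e nonempty_equiv_of_countable
  exact ⟨f, fun i => by simpa [e] using hf ⟨_, i, rfl⟩⟩

omit [Countable X] in
lemma coinf {κ : ℕ → Type} [∀ j, Nonempty (κ j)] {u : Sigma κ → X} (hu : Injective u) :
    (range fun p : {p : Sigma κ // Even p.1} => u p)ᶜ.Infinite :=
  infinite_of_injective_forall_mem (f := fun j => u ⟨2 * j + 1, Classical.arbitrary _⟩)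
    (fun i j e => by simpa using congrArg Sigma.fst (hu e)) fun j ⟨p, e⟩ => by
      simpa [show p.1.1 = 2 * j + 1 from congrArg Sigma.fst (hu e)] using p.2

lemma ext2 {κ : ℕ → Type} [∀ j, Nonempty (κ j)] {u : Sigma κ → X} {v : Sigma κ → Y}
    (hu : Injective u) (hv : Injective v) : ∃ f : X ≃ Y, ∀ j k, f (u ⟨2 * j, k⟩) = v ⟨2 * j, k⟩ :=
  (ext1 (hu.comp Subtype.val_injective) (hv.comp Subtype.val_injective) (coinf hu) (coinf hv)).imp
    fun _ h j k => h ⟨⟨2 * j, k⟩, even_two_mul j⟩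

lemma seqI {α : Type} (P : ℕ → α → Prop) (r : α → α → Prop)
    (h : ∀ n (s : Finset α), ∃ y, P n y ∧ ∀ x ∈ s, r x y) :
    ∃ f : ℕ → α, (∀ n, P n (f n)) ∧ ∀ m n, m < n → r (f m) (f n) := by
  classical
  choose c c1 c2 using h
  let S : ℕ → Finset α := fun n => Nat.rec ∅ (fun n s => insert (c n s) s) n
  exact ⟨fun n => c n (S n), fun n => c1 _ _, fun m n k => c2 _ _ _ (monotone_nat_of_le_succ
    (f := S) (fun _ => Finset.subset_insert _ _) k (Finset.mem_insert_self _ _))⟩

omit [Countable X] in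
lemma inj_of {f : ℕ → X} (h : ∀ m n, m < n → f n ≠ f m) : Injective f := fun m n e => by
  by_contra k
  rcases lt_or_gt_of_ne k with a | a
  exacts [h _ _ a e.symm, h _ _ a e]

omit [Countable X] in
lemma conj_eq {p f g : Perm X} (h : ∀ x ∈ mv p, f x = g x) : f * p * f⁻¹ = g * p * g⁻¹ := by
  have : Commute (g⁻¹ * f) p := Perm.Disjoint.commute fun x => or_iff_not_imp_right.2
    fun k => by simp [h x k]
  calc f * p * f⁻¹ = g * (g⁻¹ * f * p) * f⁻¹ := by group
    _ = _ := by rw [this.eq]; group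

omit [Countable X] in
lemma mv_conj (f p : Perm X) : mv (f * p * f⁻¹) = f '' mv p := by
  ext x
  obtain ⟨x, rfl⟩ := f.surjective x
  simp [mv]

lemma comm1 {σ : Perm X} (h : (mv σ)ᶜ.Infinite) : ∃ a b : Perm X, σ = ⁅a, b⁆ := by
  obtain ⟨e, he⟩ := ext1 (u := (Subtype.val : mv σ → X)) (v := fun x => (x.1, (0 : ℤ)))
    Subtype.val_injective (fun _ _ k => Subtype.ext (congrArg Prod.fst k)) (by simpa)
    (infinite_of_injective_forall_mem (f := fun n : ℕ => (h.nonempty.some, (n + 1 : ℤ)))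
      (fun _ _ k => by simpa using k) fun n ⟨_, k⟩ => by
        have := congrArg Prod.snd k
        simp only at this
        omega)
  let τ : Perm (X × ℤ) := prodCongrLeft fun n => if 0 ≤ n then σ else 1
  let s : Perm (X × ℤ) := prodCongr (.refl X) (.addRight 1)
  have c (y : X) (n : ℤ) : ⁅τ, s⁆ (y, n) = (if n = 0 then σ y else y, n) := by
    rcases lt_trichotomy n 0 with k | rfl | k
    · simp [commutatorElement_def, τ, s, Perm.inv_def, prodCongrLeft, k.ne, k.not_ge,
        show ¬ 1 ≤ n by omega]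
    · simp [commutatorElement_def, τ, s, Perm.inv_def, prodCongrLeft, Perm.one_def]
    · simp [commutatorElement_def, τ, s, Perm.inv_def, prodCongrLeft, k.ne', k.le,
        show 1 ≤ n by omega]
  refine ⟨e.symm.permCongrHom τ, e.symm.permCongrHom s, ?_⟩
  rw [← map_commutatorElement]
  ext x
  change σ x = e.symm (⁅τ, s⁆ (e x))
  rw [eq_symm_apply]
  by_cases k : x ∈ mv σ
  · rw [he ⟨x, k⟩, c, if_pos rfl, he ⟨σ x, fun a => k (σ.injective a)⟩]
  · rw [not_not.1 k, show e x = ((e x).1, (e x).2) from rfl, c]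
    split_ifs with a
    · by_contra b
      refine k (e.injective (Prod.ext rfl a.symm |> (he ⟨(e x).1, fun d => b ?_⟩).trans) ▸ fun d => b ?_)
        <;> rw [d]
    · rfl

variable [Infinite X]

lemma two (σ : Perm X) : ∃ f : Perm X, (mv f)ᶜ.Infinite ∧ (mv (f⁻¹ * σ))ᶜ.Infinite := by
  classical
  obtain ⟨x, -, h⟩ := exists_seq_of_forall_finset_exists (fun _ : X => True)
    (fun x y => y ≠ x ∧ y ≠ σ x ∧ σ y ≠ x) fun s _ => by
      obtain ⟨y, hy⟩ := Infinite.exists_notMem_finset (s ∪ s.image σ ∪ s.image σ.symm)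
      exact ⟨y, trivial, fun x hx => by grind⟩
  have h1 := inj_of fun m n k => (h m n k).1
  have h2 : Injective fun j => if j % 4 = 0 then σ (x j) else x j := inj_of fun m n k => by
    have := h m n k
    split_ifs <;> simp [this]
  have h3 : Injective (Sigma.fst : (Σ _ : ℕ, Unit) → ℕ) := fun ⟨_, _⟩ ⟨_, _⟩ e => by simpa using e
  obtain ⟨f, hf⟩ := ext2 (h1.comp h3) (h2.comp h3)
  refine ⟨f, infinite_of_injective_forall_mem (f := fun j => x (2 * (2 * j + 1)))
    (fun _ _ e => by simpa using h1 e) fun j => ?_, infinite_of_injective_forall_mem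
      (f := fun j => x (2 * (2 * j))) (fun _ _ e => by simpa using h1 e) fun j => ?_⟩
  · simpa [mv, show 2 * (2 * j + 1) % 4 ≠ 0 by omega] using hf (2 * j + 1) ()
  · simpa [mv, show 2 * (2 * j) % 4 = 0 by omega, Equiv.symm_apply_eq] using (hf (2 * j) ()).symm

lemma gen (M : Subgroup (Perm X)) (h : ∀ σ, (mv σ)ᶜ.Infinite → σ ∈ M) (σ : Perm X) : σ ∈ M := by
  obtain ⟨f, h1, h2⟩ := two σ
  simpa using mul_mem (h _ h1) (h _ h2)

lemma perfect (M : Subgroup (Perm X)) (h : ∀ a b : Perm X, ⁅a, b⁆ ∈ M) : ∀ σ, σ ∈ M :=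
  gen M fun _ k => (comm1 k).elim fun a k => k.elim fun b k => k ▸ h a b

lemma big (M : Subgroup (Perm X)) [M.Normal] {Z : Set X} (hZ : Z.Infinite)
    (h : ∀ a b, mv a ⊆ Z → mv b ⊆ Z → ⁅a, b⁆ ∈ M) : ∀ σ, σ ∈ M := by
  classical
  haveI := hZ.to_subtype
  have h0 (a : Perm Z) : mv (Perm.ofSubtype a) ⊆ Z := fun x hx => by_contra fun k =>
    hx (Perm.ofSubtype_apply_of_not_mem a k)
  have h1 := perfect (M.comap Perm.ofSubtype) fun a b : Perm Z => by
    simpa [map_commutatorElement] using h _ _ (h0 a) (h0 b)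
  have h2 (σ) (k : mv σ ⊆ Z) : σ ∈ M := Perm.ofSubtype_subtypePerm (p := (· ∈ Z)) (f := σ)
    (fun x => by
      by_cases e : σ x = x
      · rw [e]
      · exact iff_of_true (k fun a => e (σ.injective a)) (k e)) k ▸ h1 _
  refine gen M fun σ k => ?_
  obtain ⟨c, hc⟩ := exists_injective_nat (mv σ)
  let z : ℕ → X := fun n => hZ.natEmbedding _ n
  have hz : Injective z := Subtype.val_injective.comp (hZ.natEmbedding _).injective
  obtain ⟨f, hf⟩ := ext1 (u := (Subtype.val : mv σ → X)) (v := fun x => z (2 * c x))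
    Subtype.val_injective (fun _ _ e => hc (by simpa using hz e)) (by simpa)
    (infinite_of_injective_forall_mem (f := fun n => z (2 * n + 1))
      (fun _ _ e => by simpa using hz e) fun n ⟨_, e⟩ => by have := hz e; omega)
  simpa [mul_assoc] using Subgroup.Normal.conj_mem ‹_› _ (h2 (f * σ * f⁻¹) (by
    rw [mv_conj]
    rintro _ ⟨x, hx, rfl⟩
    rw [hf ⟨x, hx⟩]
    exact (hZ.natEmbedding _ _).2)) f⁻¹

end Pool.Agent.H.MP_8d0ff6_al.A
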