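import Mathlib
import Pool.Agent.H.MP_8d0ff6_al.A

set_option autoImplicit false

namespace Pool.Agent.H.MP_8d0ff6_al.B

open Set Equiv Filter Topology Pool.Agent.H.MP_8d0ff6_al.A
open Function hiding swap
open scoped commutatorElement

abbrev S := Perm ℤ

def Nb : Subgroup S := .closure {σ | ∃ s t : S, s.IsSwap ∧ t.IsSwap ∧ σ = s * t}
def Nc : Subgroup S := .closure {σ | σ.IsSwap}
def C3 : Set S := {σ | ∃ a b c, a ≠ b ∧ a ≠ c ∧ b ≠ c ∧ σ = swap a b * swap a c}

lemma memc {σ : S} : σ ∈ Nc ↔ (mv σ).Finite := mem_closure_isSwap'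

lemma bc : Nb ≤ Nc := (Subgroup.closure_le _).2 fun _ ⟨_, _, a, b, e⟩ =>
  e ▸ mul_mem (Subgroup.subset_closure a) (Subgroup.subset_closure b)

lemma c3b : C3 ⊆ Nb := fun _ ⟨_, _, _, a, b, _, e⟩ =>
  Subgroup.subset_closure ⟨_, _, ⟨_, _, a, rfl⟩, ⟨_, _, b, rfl⟩, e⟩

instance : Nc.Normal := ⟨fun _ h g => memc.2 (mv_conj g _ ▸ (memc.1 h).image _)⟩

lemma par {σ g : S} (h : σ ∈ Nc) (k : g ∈ Nc) (h' : σ ∉ Nb) (k' : g ∉ Nb) : g⁻¹ * σ ∈ Nb := by
  have t0 : (swap 0 1 : S).IsSwap := ⟨_, _, zero_ne_one, rfl⟩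
  have st (t y : S) (ht : t.IsSwap) (h : y ∈ Nb ∨ swap 0 1 * y ∈ Nb) :
      t * y ∈ Nb ∨ swap 0 1 * (t * y) ∈ Nb :=
    h.elim (fun h => .inr (mul_assoc (swap 0 1) t y ▸ mul_mem (Subgroup.subset_closure
      ⟨_, _, t0, ht, rfl⟩) h)) fun h => .inl (by
        simpa [mul_assoc] using Nb.mul_mem (Subgroup.subset_closure ⟨_, _, ht, t0, rfl⟩) h)
  have (y) (hy : y ∈ Nc) : y ∈ Nb ∨ swap 0 1 * y ∈ Nb := by
    induction hy using Subgroup.closure_induction_left with
    | one => exact .inl (one_mem _)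
    | mul_left t ht y _ h => exact st t y ht h
    | inv_mul_cancel t ht y _ h =>
      obtain ⟨a, b, c, rfl⟩ := ht
      exact st _ y ⟨a, b, c, rfl⟩ h
  simpa [mul_assoc] using mul_mem (inv_mem ((this g k).resolve_left k'))
    ((this σ h).resolve_left h')

lemma cb {a b : S} (h : a ∈ Nc) (k : b ∈ Nc) : ⁅a, b⁆ ∈ Nb := by
  have sq (σ) (h : σ ∈ Nc) : σ * σ ∈ Nb := by
    by_cases e : σ ∈ Nb
    · exact mul_mem e e
    · simpa using par h (inv_mem h) e (by simpa)
  simpa [commutatorElement_def, mul_assoc] using mul_mem (mul_mem (sq _ (mul_mem h k))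
    (sq _ (mul_mem (mul_mem (inv_mem k) (inv_mem h)) k))) (sq _ (inv_mem k))

lemma sig_inj {D : ℕ → Set ℤ} {w : ℕ → S} (h : ∀ m n, m < n → Disjoint (w m '' D m) (w n '' D n)) :
    Injective fun a : Σ j, D j => w a.1 a.2 := by
  rintro ⟨i, x, hx⟩ ⟨j, y, hy⟩ (e : w i x = w j y)
  obtain rfl : i = j := by
    by_contra k
    rcases lt_or_gt_of_ne k with a | a
    exacts [disjoint_left.1 (h _ _ a) ⟨x, hx, e⟩ ⟨y, hy, rfl⟩,
      disjoint_left.1 (h _ _ a) ⟨y, hy, rfl⟩ ⟨x, hx, e⟩]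
  obtain rfl := (w i).injective e
  rfl

lemma mv_ne {p : S} (h : p ≠ 1) : (mv p).Nonempty := by
  by_contra! k
  exact h (Equiv.ext fun x => not_not.1 fun a => k.le a)

variable [TopologicalSpace S] [IsTopologicalGroup S] [T2Space S]

lemma gau (a : ℤ) : ∀ᶠ g : S in 𝓝 1, g a = a := by
  have h (b c : ℤ) (h1 : a ≠ b) (h2 : a ≠ c) (h3 : b ≠ c) : ∀ᶠ g : S in 𝓝 1,
      g a = a ∨ g a = c ∨ g b = a ∨ g b = c := by
    filter_upwards [(isOpen_ne_fun (f := fun g : S => g * swap a b * g⁻¹ * swap a c)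
      (g := fun g => swap a c * (g * swap a b * g⁻¹)) (by fun_prop) (by fun_prop)).mem_nhds
        (fun e => by simpa [swap_apply_def, h1.symm, h2.symm, h3, h3.symm] using
          DFunLike.congr_fun e a : (1 : S) ∈ _)] with g hg
    by_contra! k
    rw [← swap_apply_apply] at hg
    exact hg (Perm.Disjoint.commute fun x => by grind)
  filter_upwards [h (a + 1) (a - 1) (by omega) (by omega) (by omega),
    h (a + 2) (a - 1) (by omega) (by omega) (by omega),
    h (a + 3) (a - 1) (by omega) (by omega) (by omega),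
    h (a + 1) (a - 2) (by omega) (by omega) (by omega),
    h (a + 2) (a - 2) (by omega) (by omega) (by omega),
    h (a + 3) (a - 2) (by omega) (by omega) (by omega)] with g h1 h2 h3 h4 h5 h6
  have a1 := g.injective.ne (show a + 1 ≠ a + 2 by omega)
  have a2 := g.injective.ne (show a + 1 ≠ a + 3 by omega)
  have a3 := g.injective.ne (show a + 2 ≠ a + 3 by omega)
  omega

lemma FC {p f : ℕ → S} (h1 : Tendsto p atTop (𝓝 1)) (h2 : ∀ j, p j ∈ Nc ∧ p j ≠ 1)
    (h3 : ∀ x, ∀ᶠ j in atTop, (f j * p j * (f j)⁻¹) x = x) {U : Set S} (hU : U ∈ 𝓝 1) :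
    ∃ᶠ j in atTop, f j * p j * (f j)⁻¹ ∈ U := by
  obtain ⟨φ, -, h⟩ := exists_seq_of_forall_finset_exists (fun _ => True) (fun m n => m < n ∧
    (∀ x ∈ mv (p m), p n x = x) ∧ ∀ x ∈ f m '' mv (p m), (f n * p n * (f n)⁻¹) x = x) fun s _ =>
      (((eventually_all_finset s).2 fun m _ => (eventually_gt_atTop m).and
        (((eventually_all_finite (memc.1 (h2 m).1)).2 fun x _ => h1.eventually (gau x)).and
          ((eventually_all_finite ((memc.1 (h2 m).1).image _)).2 fun x _ => h3 x))).exists).imp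
            fun _ h => ⟨trivial, h⟩
  haveI : ∀ j, Nonempty (mv (p (φ j))) := fun j => (mv_ne (h2 _).2).to_subtype
  obtain ⟨g, hg⟩ := ext2 (sig_inj (D := fun j => mv (p (φ j))) (w := fun _ => 1) fun m n k => by
    simpa using disjoint_left.2 fun x a (b : x ∈ mv (p (φ n))) => b ((h m n k).2.1 x a))
    (sig_inj (w := fun j => f (φ j)) fun m n k => disjoint_left.2 fun x a b =>
      (mv_conj _ _).ge b ((h m n k).2.2 x a))
  have t : Tendsto (fun j => φ (2 * j)) atTop atTop := StrictMono.tendsto_atTop fun m n k =>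
    (h _ _ (by omega)).1
  refine t.frequently (Eventually.frequently ?_)
  filter_upwards [(((by fun_prop : Continuous fun x : S => g * x * g⁻¹).tendsto' 1 1
    (by simp)).comp (h1.comp t)).eventually hU] with j hj
  exact conj_eq (f := g) (g := f (φ (2 * j))) (fun x hx => hg j ⟨x, hx⟩) ▸ hj

def Tame (N : Set S) : Prop :=
  ∀ U ∈ 𝓝 (1 : S), ∃ F : Set ℤ, F.Finite ∧ ∀ σ ∈ N, (∀ x ∈ F, σ x = x) → σ ∈ U

variable [(𝓝 (1 : S)).IsCountablyGenerated]

lemma icc (x : ℤ) : ∀ᶠ j : ℕ in atTop, x ∈ Icc (-j : ℤ) j :=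
  (eventually_ge_atTop x.natAbs).mono fun j h => ⟨by omega, by omega⟩

lemma T1 {N : Set S} (hN : N ⊆ Nc) (h : ∀ σ ∈ N, ∀ U ∈ 𝓝 (1 : S), ∃ f, f⁻¹ * σ * f ∈ U) :
    Tame N := fun U hU => by
  by_contra! k
  choose σ s1 s2 s3 using fun j : ℕ => k _ (finite_Icc (-j : ℤ) j)
  obtain ⟨B, hB⟩ := (𝓝 (1 : S)).exists_antitone_basis
  choose f hf using fun j => h _ (s1 j) _ (hB.mem j)
  obtain ⟨j, hj⟩ := (FC (f := f) (hB.tendsto hf) (fun j => ⟨by
    simpa using Subgroup.Normal.conj_mem inferInstance _ (hN (s1 j)) (f j)⁻¹, fun e => s3 j (by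
      rw [show σ j = 1 by simpa [mul_assoc, inv_mul_eq_one] using e]
      exact mem_of_mem_nhds hU)⟩) (fun x => (icc x).mono fun j hj => by
        simpa [mul_assoc] using s2 j x hj) hU).exists
  exact s3 j (by simpa [mul_assoc] using hj)

lemma tameC (hg : ∀ U ∈ 𝓝 (1 : S), ∃ g ∈ U, g ∈ Nc ∧ g ≠ 1) : Tame C3 := by
  obtain ⟨B, hB⟩ := (𝓝 (1 : S)).exists_antitone_basis
  choose g g1 g2 g3 using fun j => hg _ (hB.mem j)
  choose x hx using fun j => mv_ne (g3 j)
  choose y hy using fun j : ℕ => ((memc.1 (g2 j)).union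
    (finite_Icc (-j : ℤ) j)).infinite_compl.nonempty
  have t := hB.tendsto g1
  refine T1 (c3b.trans bc) fun σ ⟨a, b, c, a1, a2, a3, e⟩ U hU => ?_
  obtain ⟨W, w1, w2⟩ := exists_nhds_one_split hU
  obtain ⟨j, h1, h2⟩ := ((FC (f := fun j => swap (x j) (y j)) (by simpa using t.inv)
    (fun j => ⟨inv_mem (g2 j), by simpa using g3 j⟩) (fun z => ((icc z).and
      (t.eventually (gau z))).mono fun j ⟨h1, h2⟩ => by
        have : swap (x j) (y j) z = z := swap_apply_of_ne_of_ne (fun e => hx j (e ▸ h2))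
          fun e => hy j (.inr (e ▸ h1))
        simp [this, (symm_apply_eq _).2 h2.symm]) w1).and_eventually (t.eventually w1)).exists
  have b1 : g j (y j) = y j := not_not.1 fun k => hy j (.inl k)
  have b2 : y j ≠ x j := fun e => hx j (e ▸ b1)
  have b3 : y j ≠ g j (x j) := fun e => b2 ((g j).injective (b1.trans e))
  have b4 : g j (x j) ≠ x j := hx j
  obtain ⟨f, hf⟩ := ext1 (u := ![y j, g j (x j), x j]) (v := ![a, b, c])
    (fun i k => by fin_cases i <;> fin_cases k <;> simp [*, Ne.symm])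
    (fun i k => by fin_cases i <;> fin_cases k <;> simp [*, Ne.symm])
    (finite_range _).infinite_compl (finite_range _).infinite_compl
  refine ⟨f, mem_of_eq_of_mem ?_ (w2 _ h2 _ h1)⟩
  rw [e, ← show f (y j) = a from hf 0, ← show f (g j (x j)) = b from hf 1,
    ← show f (x j) = c from hf 2, swap_apply_apply f, swap_apply_apply f, swap_comm (y j),
    swap_comm (y j), ← b1, swap_apply_apply, b1, swap_inv]
  group

lemma tameB (hg : ∀ U ∈ 𝓝 (1 : S), ∃ g ∈ U, g ∈ Nc ∧ g ≠ 1) : Tame Nb := by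
  let s : ℕ → S := fun k => Equiv.addRight (k : ℤ)
  have q1 (σ) (h : σ ∈ C3) : Tendsto (fun k => s k * σ * (s k)⁻¹) atTop (𝓝 1) := fun U hU => by
    obtain ⟨F, f1, f2⟩ := tameC hg U hU
    have (x : ℤ) : ∀ᶠ k : ℕ in atTop, x - k ∉ mv σ := Nat.cofinite_eq_atTop ▸
      ((memc.1 (bc (c3b h))).preimage (f := fun k : ℕ => x - k) fun _ _ _ _ e => by
        simpa using e).compl_mem_cofinite
    refine mem_map.2 (mem_of_superset ((eventually_all_finite f1).2 fun x _ => this x) fun k hk => ?_)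
    obtain ⟨a, b, c, a1, a2, a3, rfl⟩ := h
    refine f2 _ ⟨_, _, _, (s k).injective.ne a1, (s k).injective.ne a2, (s k).injective.ne a3, by
      simp [swap_apply_apply, mul_assoc]⟩ fun x hx => ?_
    exact not_not.1 fun e => hk x hx (by
      obtain ⟨y, h1, rfl⟩ := (mv_conj _ _).le e
      simpa [s] using h1)
  have q2 {a b : S} (h : Tendsto (fun k => s k * a * (s k)⁻¹) atTop (𝓝 1))
      (k : Tendsto (fun k => s k * b * (s k)⁻¹) atTop (𝓝 1)) :
      Tendsto (fun k => s k * (a * b) * (s k)⁻¹) atTop (𝓝 1) := by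
    simpa [mul_assoc] using h.mul k
  refine T1 bc fun σ h U hU => ?_
  suffices Tendsto (fun k => s k * σ * (s k)⁻¹) atTop (𝓝 1) from
    (this.eventually hU).exists.elim fun k hk => ⟨(s k)⁻¹, by rwa [inv_inv]⟩
  induction h using Subgroup.closure_induction with
  | one => simp
  | mul _ _ _ _ a b => exact q2 a b
  | inv _ _ a => simpa [mul_assoc] using a.inv
  | mem _ h =>
    obtain ⟨_, _, ⟨a, b, h1, rfl⟩, ⟨c, d, h2, rfl⟩, rfl⟩ := h
    obtain ⟨e, he⟩ := Infinite.exists_notMem_finset {a, b, c, d}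
    simp only [Finset.mem_insert, Finset.mem_singleton, not_or] at he
    have : Tendsto (fun k => s k * (swap e a * swap e c) * (s k)⁻¹) atTop (𝓝 1) := by
      by_cases k : a = c
      · simp [k]
      · exact q1 _ ⟨_, _, _, he.1, he.2.2.1, k, rfl⟩
    simpa [mul_assoc, swap_comm e] using q2 (q2 (q1 _ ⟨a, b, e, h1, Ne.symm he.1, Ne.symm he.2.1,
      rfl⟩) this) (q1 _ ⟨c, e, d, Ne.symm he.2.2.1, h2, he.2.2.2, rfl⟩)

end Pool.Agent.H.MP_8d0ff6_al.B
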